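import Pool.Agent.H44.GT.Targets

/-!
# Short intervals have a small mass

A short interval of the range of a triangle is covered by the intervals of two long words, and the
words have a small mass.
-/

set_option autoImplicit false

namespace Pool.Agent.H72.GD

open Pool.Agent.H44.DU
open Pool.Agent.H44.DU.Surf

/-- The left end of the range of a triangle is at most its right end. -/
lemma xl_le_xr {n : ℕ} (S : Surf n) (t : ℝ) (i : Fin n) : S.xl t i ≤ S.xr t i :=
  (min_le_left _ _).trans (le_max_left _ _)

/-- The function is constant outside the range: it is determined by the clamped point. -/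
lemma clamp_eq {n : ℕ} (S : Surf n) {t κ M : ℝ} {p : Fin n → ℝ → ℝ} (hp : S.AM t κ M p)
    (i : Fin n) (x : ℝ) : p i x = p i (max (S.xl t i) (min x (S.xr t i))) := by
  have h := xl_le_xr S t i
  rcases le_total x (S.xl t i) with h1 | h1
  · rw [hp.left i x h1, min_eq_left (h1.trans h), max_eq_left h1, hp.left i _ le_rfl]
  · rcases le_total x (S.xr t i) with h2 | h2
    · rw [min_eq_left h2, max_eq_right h1]
    · rw [hp.right i x h2, min_eq_right h2, max_eq_right h]

/-- Short intervals have a small mass, uniformly near a direction of the second kind. -/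
theorem pf_M_UNI (h1 : M_MSW) (h2 : M_COV) : M_UNI := by
  intro n S t c M ε hK hM hε
  obtain ⟨L, hL, δ₁, hδ₁, κ, hκ, hw⟩ := h1 n S t c M (ε / 2) hK hM (by positivity)
  obtain ⟨η, hη, δ₂, hδ₂, hc⟩ := h2 n S t L hK.ok.gd hL
  refine ⟨η, hη, min δ₁ δ₂, lt_min hδ₁ hδ₂, κ, hκ, ?_⟩
  intro t' ht' p hp i x y hxy hxy2
  have ht1 := lt_of_lt_of_le ht' (min_le_left _ _)
  have ht2 := lt_of_lt_of_le ht' (min_le_right _ _)
  rw [clamp_eq S hp i x, clamp_eq S hp i y]
  have hlr := xl_le_xr S t' i
  set x' := max (S.xl t' i) (min x (S.xr t' i)) with hx'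
  set y' := max (S.xl t' i) (min y (S.xr t' i)) with hy'
  have a1 : S.xl t' i ≤ x' := le_max_left _ _
  have a2 : y' ≤ S.xr t' i := max_le hlr (min_le_right _ _)
  have a3 : x' ≤ y' := max_le_max le_rfl (min_le_min hxy le_rfl)
  have a4 : y' - x' < η := by
    have : y' - x' ≤ y - x := by
      rcases le_total x (S.xl t' i) with q1 | q1
      · have e1 : x' = S.xl t' i := by
          rw [hx', min_eq_left (q1.trans hlr), max_eq_left q1]
        rcases le_total y (S.xl t' i) with q2 | q2
        · have e2 : y' = S.xl t' i := by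
            rw [hy', min_eq_left (q2.trans hlr), max_eq_left q2]
          rw [e1, e2]; linarith
        · have e2 : y' ≤ y := max_le q2 (min_le_left _ _)
          rw [e1]; linarith
      · have e1 : min x (S.xr t' i) ≤ x' := le_max_right _ _
        rcases le_total x (S.xr t' i) with q2 | q2
        · rw [min_eq_left q2] at e1
          have e2 : y' ≤ y := max_le (q1.trans hxy) (min_le_left _ _)
          linarith
        · rw [min_eq_right q2] at e1
          linarith
    linarith
  obtain ⟨r, r', w, w', z, hr, hr', hl, hl', hv, hv', b1, b2, b3, b4, b5, b6⟩ :=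
    hc t' ht2 i x' y' a1 a3 a2 a4
  have c1 := hw t' ht1 p hp r w hl hv
  have c2 := hw t' ht1 p hp r' w' hl' hv'
  rw [hr] at c1
  rw [hr'] at c2
  have d1 := hp.mono i b3
  have d2 := hp.mono i b4
  have d3 := hp.mono i b5
  have d4 := hp.mono i b6
  linarith

end Pool.Agent.H72.GD
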